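import Pool.Agent.H884R2.HFP.Main

namespace Pool.Agent.H884R2.HFP
open Finset Pool.Agent.H160R2.HF Pool.Agent.H160R2.HF.OrGraph

variable {V E : Type*} [Fintype V] [Fintype E] [DecidableEq V] [DecidableEq E] (G : OrGraph V E)

/-- `U` contains exactly one vertex of every component of `(V, F)` with an odd number of vertices
and no vertex of the other components. -/
def OddTransversal (F : Finset E) (U : Finset V) : Prop :=
  ∀ c : (G.sub F).ConnectedComponent, ((U : Set V) ∩ c.supp).ncard = c.supp.ncard % 2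

theorem OddTransversal.inj {F : Finset E} {U : Finset V} (h : OddTransversal G F U) :
    ∀ u ∈ U, ∀ v ∈ U, (G.sub F).Reachable u v → u = v := by
  intro u hu v hv huv
  have h1 := h ((G.sub F).connectedComponentMk v)
  have h2 : (((U : Set V) ∩ ((G.sub F).connectedComponentMk v).supp)).ncard ≤ 1 := by
    rw [h1]; omega
  rw [Set.ncard_le_one (Set.toFinite _)] at h2
  apply h2
  · refine ⟨by simpa using hu, ?_⟩
    rw [SimpleGraph.ConnectedComponent.mem_supp_iff, SimpleGraph.ConnectedComponent.eq]
    exact huv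
  · refine ⟨by simpa using hv, ?_⟩
    rw [SimpleGraph.ConnectedComponent.mem_supp_iff]

theorem OddTransversal.odd_iff {F : Finset E} {U : Finset V} (h : OddTransversal G F U) (v : V) :
    Odd ((G.sub F).connectedComponentMk v).supp.ncard ↔ ∃ u ∈ U, (G.sub F).Reachable u v := by
  have h1 := h ((G.sub F).connectedComponentMk v)
  constructor
  · intro hodd
    rw [Nat.odd_iff.1 hodd] at h1
    have h2 : (((U : Set V) ∩ ((G.sub F).connectedComponentMk v).supp)).Nonempty := by
      rw [← Set.ncard_pos (Set.toFinite _)]; omega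
    obtain ⟨u, hu1, hu2⟩ := h2
    rw [SimpleGraph.ConnectedComponent.mem_supp_iff, SimpleGraph.ConnectedComponent.eq] at hu2
    exact ⟨u, by simpa using hu1, hu2⟩
  · rintro ⟨u, hu, huv⟩
    have h2 : 0 < (((U : Set V) ∩ ((G.sub F).connectedComponentMk v).supp)).ncard := by
      rw [Set.ncard_pos (Set.toFinite _)]
      refine ⟨u, by simpa using hu, ?_⟩
      rw [SimpleGraph.ConnectedComponent.mem_supp_iff, SimpleGraph.ConnectedComponent.eq]
      exact huv
    rw [Nat.odd_iff]
    omega

/-- The pairing theorem. -/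
theorem exists_pair_of_transversal (hc : G.Cubic) (F : Finset E) (hF : G.IsTwoFactor F)
    (U : Finset V) (hU : OddTransversal G F U)
    (τ : V → V) (hτ : ∀ u ∈ U, τ u ∈ U ∧ τ (τ u) = u ∧ τ u ≠ u)
    (hq : ∀ X : Finset V, (G.cut X ∩ F).card < 2 * sep U τ X →
      5 * sep U τ X ≤ (G.cut X).card + 1) :
    ∃ φ₂ φ₄ : E → ℤ, G.IsHalfFlowPair φ₂ φ₄ ∧ ∀ e, φ₂ e ≠ 0 ↔ e ∈ F := by
  obtain ⟨B, hBF, hB⟩ := exists_matching_of_reps G F hF U (hU.inj G) (hU.odd_iff G)
  exact exists_pair_of_pairing G hc F hF U B hBF hB τ hτ hq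

/-- There is an odd transversal, and its size is the number of odd components. -/
theorem exists_transversal (F : Finset E) :
    ∃ U : Finset V, OddTransversal G F U ∧ U.card = G.oddCount F := by
  classical
  let U : Finset V := univ.filter (fun v =>
    Odd ((G.sub F).connectedComponentMk v).supp.ncard ∧
      Quot.out ((G.sub F).connectedComponentMk v) = v)
  have hout : ∀ c : (G.sub F).ConnectedComponent, (G.sub F).connectedComponentMk (Quot.out c) = c :=
    fun c => Quot.out_eq c
  have hmem : ∀ c : (G.sub F).ConnectedComponent, Odd c.supp.ncard → Quot.out c ∈ U := by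
    intro c hc
    rw [Finset.mem_filter, hout]
    exact ⟨mem_univ _, hc, rfl⟩
  refine ⟨U, ?_, ?_⟩
  · intro c
    by_cases hc : Odd c.supp.ncard
    · rw [Nat.odd_iff.1 hc]
      have : (U : Set V) ∩ c.supp = {Quot.out c} := by
        ext v
        simp only [Set.mem_inter_iff, Finset.mem_coe, Set.mem_singleton_iff,
          SimpleGraph.ConnectedComponent.mem_supp_iff]
        constructor
        · rintro ⟨h1, h2⟩
          have h3 := (Finset.mem_filter.1 h1).2.2
          rw [h2] at h3; exact h3.symm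
        · intro h
          rw [h]
          exact ⟨hmem c hc, hout c⟩
      rw [this]; simp
    · rw [Nat.not_odd_iff_even] at hc
      rw [Nat.even_iff.1 hc, Set.ncard_eq_zero (Set.toFinite _)]
      ext v
      simp only [Set.mem_inter_iff, Finset.mem_coe, Set.mem_empty_iff_false, iff_false,
        SimpleGraph.ConnectedComponent.mem_supp_iff]
      rintro ⟨h1, h2⟩
      have h3 := (Finset.mem_filter.1 h1).2.1
      rw [h2] at h3
      exact (Nat.not_odd_iff_even.2 hc) h3
  · unfold oddCount
    rw [← Set.ncard_coe_finset U]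
    apply Set.ncard_congr (fun v _ => (G.sub F).connectedComponentMk v)
    · intro v hv
      exact (Finset.mem_filter.1 (Finset.mem_coe.1 hv)).2.1
    · intro u v hu hv huv
      have h1 := (Finset.mem_filter.1 (Finset.mem_coe.1 hu)).2.2
      have h2 := (Finset.mem_filter.1 (Finset.mem_coe.1 hv)).2.2
      rw [← h1, ← h2, huv]
    · intro c hc
      exact ⟨Quot.out c, by simpa using hmem c hc, hout c⟩

/-- A finite set with an even number of elements can be paired up. -/
theorem exists_pairing (n : ℕ) : ∀ U : Finset V, U.card = 2 * n →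
    ∃ τ : V → V, ∀ u ∈ U, τ u ∈ U ∧ τ (τ u) = u ∧ τ u ≠ u := by
  classical
  induction n with
  | zero =>
    intro U hU
    have : U = ∅ := Finset.card_eq_zero.1 (by simpa using hU)
    subst this
    exact ⟨id, by simp⟩
  | succ n ih =>
    intro U hU
    obtain ⟨a, ha⟩ : U.Nonempty := Finset.card_pos.1 (by omega)
    obtain ⟨b, hb⟩ : (U.erase a).Nonempty := Finset.card_pos.1 (by
      rw [Finset.card_erase_of_mem ha]; omega)
    have hba : b ≠ a := (Finset.mem_erase.1 hb).1
    have hbU : b ∈ U := (Finset.mem_erase.1 hb).2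
    obtain ⟨τ, hτ⟩ := ih ((U.erase a).erase b) (by
      rw [Finset.card_erase_of_mem hb, Finset.card_erase_of_mem ha]; omega)
    refine ⟨fun v => if v = a then b else if v = b then a else τ v, ?_⟩
    intro u hu
    by_cases h1 : u = a
    · subst h1
      simp [hbU, hba]
    · by_cases h2 : u = b
      · subst h2
        simp only [if_neg h1, if_true]
        exact ⟨ha, trivial, fun h => hba h.symm⟩
      · have hu' : u ∈ (U.erase a).erase b := by simp [h1, h2, hu]
        obtain ⟨h3, h4, h5⟩ := hτ u hu'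
        simp only [Finset.mem_erase] at h3
        simp only [if_neg h1, if_neg h2, if_neg h3.1, if_neg h3.2.1]
        exact ⟨h3.2.2, h4, h5⟩

/-- The number of odd components of a 2-factor of a cubic graph is even. -/
theorem transversal_even (hc : G.Cubic) (F : Finset E) (hF : G.IsTwoFactor F)
    (U : Finset V) (hU : OddTransversal G F U) : Even U.card := by
  classical
  obtain ⟨B, hBF, hB⟩ := exists_matching_of_reps G F hF U (hU.inj G) (hU.odd_iff G)
  have h1 := G.handshake Fᶜ univ
  have h2 := G.handshake B univ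
  rw [Finset.sum_congr rfl (fun v _ => deg_compl G hc F hF v)] at h1
  rw [Finset.sum_congr rfl (fun v _ => hB v)] at h2
  have h3 : G.cut univ = ∅ := by ext e; simp [cut]
  rw [h3] at h1 h2
  have h4 : ∑ v : V, (if v ∈ U then 0 else 1) + U.card = Fintype.card V := by
    have h5 : U.card = ∑ v : V, if v ∈ U then 1 else 0 := by
      rw [← Finset.card_filter]; simp
    rw [h5, ← Finset.sum_add_distrib]
    have : ∀ v : V, (if v ∈ U then 0 else 1) + (if v ∈ U then 1 else 0) = 1 := by
      intro v; split_ifs <;> rfl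
    rw [Finset.sum_congr rfl (fun v _ => this v)]; simp
  simp at h1 h2 h4
  rw [Nat.even_iff]
  omega

/-- If fewer than `2 q` edges of the 2-factor leave `X`, where `Q ⊆ X` is a set of `q` vertices of
different components, then some component of a vertex of `Q` lies inside `X`. -/
theorem exists_comp_inside (F : Finset E) (hF : G.IsTwoFactor F) (X Q : Finset V)
    (hQX : Q ⊆ X) (hQ : ∀ u ∈ Q, ∀ v ∈ Q, (G.sub F).Reachable u v → u = v)
    (hcard : (G.cut X ∩ F).card < 2 * Q.card) :
    ∃ u ∈ Q, ∀ v, (G.sub F).Reachable u v → v ∈ X := by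
  classical
  by_contra hcon
  push_neg at hcon
  -- the cut edges in the component of `u`
  let Eu : V → Finset E := fun u => (G.cut X ∩ F).filter (fun e => (G.sub F).Reachable u (G.t e))
  have hside : ∀ e ∈ F, (G.sub F).Reachable (G.t e) (G.h e) := by
    intro e he
    by_cases h5 : G.t e = G.h e
    · rw [h5]
    · apply SimpleGraph.Adj.reachable
      rw [sub, SimpleGraph.fromRel_adj]
      exact ⟨h5, Or.inl ⟨e, he, rfl, rfl⟩⟩
  have htwo : ∀ u ∈ Q, 2 ≤ (Eu u).card := by
    intro u hu
    set Y : Finset V := X.filter (fun v => (G.sub F).Reachable u v) with hY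
    have hcutY : G.cut Y ∩ F = Eu u := by
      ext e
      simp only [Eu, cut, Finset.mem_inter, Finset.mem_filter, Finset.mem_univ, true_and, hY]
      constructor
      · rintro ⟨h1, he⟩
        have h2 := hside e he
        by_cases h3 : (G.sub F).Reachable u (G.t e)
        · refine ⟨⟨?_, he⟩, h3⟩
          intro h4
          apply h1
          exact ⟨fun h5 => ⟨h4.1 h5.1, h3.trans h2⟩, fun h5 => ⟨h4.2 h5.1, h3⟩⟩
        · exfalso
          apply h1
          constructor
          · intro h5; exact absurd h5.2 h3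
          · intro h5; exact absurd (h5.2.trans h2.symm) h3
      · rintro ⟨⟨h1, he⟩, h3⟩
        have h2 := hside e he
        refine ⟨?_, he⟩
        intro h4
        apply h1
        exact ⟨fun h5 => (h4.1 ⟨h5, h3⟩).1, fun h5 => (h4.2 ⟨h5, h3.trans h2⟩).1⟩
    have hhs := G.handshake F Y
    rw [Finset.sum_congr rfl (fun v _ => hF v), hcutY] at hhs
    simp only [Finset.sum_const, smul_eq_mul] at hhs
    have hne : (Eu u).card ≠ 0 := by
      intro h0
      rw [Finset.card_eq_zero] at h0
      rw [h0] at hcutY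
      obtain ⟨v, hv1, hv2⟩ := hcon u hu
      apply hv2
      have h6 := G.reachable_mem F Y (by
        intro e he
        by_contra hcon2
        have : e ∈ G.cut Y ∩ F := by
          rw [Finset.mem_inter, cut, Finset.mem_filter]
          exact ⟨⟨mem_univ _, hcon2⟩, he⟩
        rw [hcutY] at this
        simp at this) hv1
      have h7 : u ∈ Y := by
        rw [hY, Finset.mem_filter]
        exact ⟨hQX hu, SimpleGraph.Reachable.refl u⟩
      exact (Finset.mem_filter.1 (h6.1 h7)).1
    omega
  have hsum : ∑ u ∈ Q, (Eu u).card ≤ (G.cut X ∩ F).card := by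
    rw [← Finset.card_biUnion]
    · apply Finset.card_le_card
      intro e he
      rw [Finset.mem_biUnion] at he
      obtain ⟨u, _, hu⟩ := he
      exact (Finset.mem_filter.1 hu).1
    · intro u hu v hv huv
      change Disjoint (Eu u) (Eu v)
      rw [Finset.disjoint_left]
      intro e he he'
      apply huv
      exact hQ u hu v hv ((Finset.mem_filter.1 he).2.trans (Finset.mem_filter.1 he').2.symm)
  have hsum2 : ∑ _u ∈ Q, 2 ≤ ∑ u ∈ Q, (Eu u).card := Finset.sum_le_sum htwo
  simp only [Finset.sum_const, smul_eq_mul] at hsum2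
  omega

omit [Fintype V] in
theorem sep_compl [Fintype V] (U : Finset V) (τ : V → V)
    (hτ : ∀ u ∈ U, τ u ∈ U ∧ τ (τ u) = u ∧ τ u ≠ u) (X : Finset V) :
    (U.filter (fun u => u ∉ X ∧ τ u ∈ X)).card = sep U τ X := by
  classical
  unfold sep
  apply Finset.card_bij (fun u _ => τ u)
  · intro u hu
    rw [Finset.mem_filter] at hu ⊢
    obtain ⟨h1, h2, h3⟩ := hτ u hu.1
    exact ⟨h1, hu.2.2, by rw [h2]; exact hu.2.1⟩
  · intro u hu v hv huv
    rw [Finset.mem_filter] at hu hv
    rw [← (hτ u hu.1).2.1, ← (hτ v hv.1).2.1, huv]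
  · intro w hw
    rw [Finset.mem_filter] at hw
    obtain ⟨h1, h2, h3⟩ := hτ w hw.1
    refine ⟨τ w, ?_, h2⟩
    rw [Finset.mem_filter]
    exact ⟨h1, hw.2.2, by rw [h2]; exact hw.2.1⟩

theorem two_sep_le (U : Finset V) (τ : V → V)
    (hτ : ∀ u ∈ U, τ u ∈ U ∧ τ (τ u) = u ∧ τ u ≠ u) (X : Finset V) :
    2 * sep U τ X ≤ U.card := by
  classical
  have h1 := sep_compl U τ hτ X
  have h2 : (U.filter (fun u => u ∉ X ∧ τ u ∈ X)).card + (U.filter (fun u => u ∈ X ∧ τ u ∉ X)).card
      ≤ U.card := by
    rw [← Finset.card_union_of_disjoint]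
    · apply Finset.card_le_card
      intro u hu
      rw [Finset.mem_union, Finset.mem_filter, Finset.mem_filter] at hu
      rcases hu with h | h <;> exact h.1
    · rw [Finset.disjoint_left]
      intro u hu hv
      rw [Finset.mem_filter] at hu hv
      exact hu.2.1 hv.2.1
  unfold sep at h1 ⊢
  omega

/-- Every cut that has an odd component of `(V, F)` on both sides has at least `m` edges. -/
def OddSeparating (F : Finset E) (m : ℕ) : Prop :=
  ∀ X : Finset V, (∃ u ∈ X, Odd ((G.sub F).connectedComponentMk u).supp.ncard ∧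
      ∀ v, (G.sub F).Reachable u v → v ∈ X) →
    (∃ u ∉ X, Odd ((G.sub F).connectedComponentMk u).supp.ncard ∧
      ∀ v, (G.sub F).Reachable u v → v ∉ X) → m ≤ (G.cut X).card

/-- Cuts separating two odd circuits have at least `5 t - 1` edges, where there are at most `2 t`
odd circuits. -/
theorem exists_pair_of_separating (hc : G.Cubic) (F : Finset E) (hF : G.IsTwoFactor F)
    (t : ℕ) (ht : G.oddCount F ≤ 2 * t) (hs : OddSeparating G F (5 * t - 1)) :
    ∃ φ₂ φ₄ : E → ℤ, G.IsHalfFlowPair φ₂ φ₄ ∧ ∀ e, φ₂ e ≠ 0 ↔ e ∈ F := by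
  classical
  obtain ⟨U, hU, hUc⟩ := exists_transversal G F
  obtain ⟨n, hn⟩ := transversal_even G hc F hF U hU
  obtain ⟨τ, hτ⟩ := exists_pairing n U (by omega)
  apply exists_pair_of_transversal G hc F hF U hU τ hτ
  intro X hX
  have h1 := two_sep_le U τ hτ X
  have hin := exists_comp_inside G F hF X (U.filter (fun u => u ∈ X ∧ τ u ∉ X)) (by
    intro u hu; exact (Finset.mem_filter.1 hu).2.1) (by
    intro u hu v hv huv
    exact hU.inj G u (Finset.mem_filter.1 hu).1 v (Finset.mem_filter.1 hv).1 huv) hX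
  have hcompl : G.cut Xᶜ = G.cut X := by
    ext e; simp [cut, not_iff_not]
  have hout := exists_comp_inside G F hF Xᶜ (U.filter (fun u => u ∉ X ∧ τ u ∈ X)) (by
    intro u hu; simpa using (Finset.mem_filter.1 hu).2.1) (by
    intro u hu v hv huv
    exact hU.inj G u (Finset.mem_filter.1 hu).1 v (Finset.mem_filter.1 hv).1 huv) (by
    rw [hcompl, sep_compl U τ hτ X]; exact hX)
  obtain ⟨u, hu1, hu2⟩ := hin
  obtain ⟨w, hw1, hw2⟩ := hout
  have hodd : ∀ u ∈ U, Odd ((G.sub F).connectedComponentMk u).supp.ncard := fun u hu =>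
    (hU.odd_iff G u).2 ⟨u, hu, SimpleGraph.Reachable.refl u⟩
  have := hs X ⟨u, (Finset.mem_filter.1 hu1).2.1, hodd u (Finset.mem_filter.1 hu1).1, hu2⟩
    ⟨w, (Finset.mem_filter.1 hw1).2.1, hodd w (Finset.mem_filter.1 hw1).1,
      fun v hv => by simpa using hw2 v hv⟩
  omega

end Pool.Agent.H884R2.HFP
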