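import Pool.Agent.H884R2.HFP.Orient

namespace Pool.Agent.H884R2.HFP
open Finset Pool.Agent.H160R2.HF Pool.Agent.H160R2.HF.OrGraph

variable {V E : Type*} [Fintype V] [Fintype E] [DecidableEq V] [DecidableEq E] (G : OrGraph V E)

theorem deg_compl (hc : G.Cubic) (F : Finset E) (hF : G.IsTwoFactor F) (v : V) :
    G.deg Fᶜ v = 1 := by
  have h1 : G.deg F v + G.deg Fᶜ v = G.deg univ v := by
    unfold deg
    have h2 : ∀ k : E → V, (F.filter (fun e => k e = v)).card +
        (Fᶜ.filter (fun e => k e = v)).card = (univ.filter (fun e => k e = v)).card := by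
      intro k
      rw [← Finset.card_union_of_disjoint, ← Finset.filter_union, Finset.union_compl]
      exact Finset.disjoint_filter_filter disjoint_compl_right
    have h3 := h2 G.t
    have h4 := h2 G.h
    omega
  have h2 := hF v
  have h3 := hc v
  omega

theorem cut_card (F : Finset E) (X : Finset V) :
    (G.cut X).card = (G.cut X ∩ F).card + (G.cut X ∩ Fᶜ).card := by
  rw [← Finset.card_union_of_disjoint, ← Finset.inter_union_distrib_left,
    Finset.union_compl, Finset.inter_univ]
  exact Finset.disjoint_of_subset_left Finset.inter_subset_right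
    (Finset.disjoint_of_subset_right Finset.inter_subset_right disjoint_compl_right)

/-- The net outflow of a `±1` function supported on `A` has the parity of the cut. -/
theorem net_parity (ψ : E → ℤ) (A : Finset E) (h1 : ∀ e ∈ A, ψ e = 1 ∨ ψ e = -1)
    (h0 : ∀ e ∉ A, ψ e = 0) (X : Finset V) :
    (2 : ℤ) ∣ (∑ v ∈ X, net G.t G.h ψ v) - (G.cut X ∩ A).card := by
  rw [net_sum]
  have h2 : ((G.cut X ∩ A).card : ℤ) = ∑ e, if e ∈ G.cut X ∩ A then 1 else 0 := by
    simp only [Finset.sum_boole]
    congr 2
    ext e; simp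
  rw [h2, ← Finset.sum_sub_distrib]
  apply Finset.dvd_sum
  intro e _
  by_cases he : e ∈ A
  · rcases h1 e he with h | h <;>
    by_cases a : G.t e ∈ X <;> by_cases b : G.h e ∈ X <;> simp [a, b, he, cut, h]
  · rw [h0 e he]
    simp [he]

/-- Main theorem, in terms of a matching `B` inside the 2-factor missing exactly `U`. -/
theorem exists_pair_of_pairing (hc : G.Cubic) (F : Finset E) (hF : G.IsTwoFactor F)
    (U : Finset V) (B : Finset E) (hBF : B ⊆ F) (hB : ∀ v, G.deg B v = if v ∈ U then 0 else 1)
    (τ : V → V) (hτ : ∀ u ∈ U, τ u ∈ U ∧ τ (τ u) = u ∧ τ u ≠ u)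
    (hq : ∀ X : Finset V, (G.cut X ∩ F).card < 2 * sep U τ X →
      5 * sep U τ X ≤ (G.cut X).card + 1) :
    ∃ φ₂ φ₄ : E → ℤ, G.IsHalfFlowPair φ₂ φ₄ ∧ ∀ e, φ₂ e ≠ 0 ↔ e ∈ F := by
  classical
  have hdegM : ∀ v, G.deg Fᶜ v = 1 := deg_compl G hc F hF
  obtain ⟨ψ, hψ1, hψ2⟩ := exists_orientation_pairing G Fᶜ B
    (Finset.disjoint_of_subset_right hBF disjoint_compl_left) hdegM U hB τ hτ
  obtain ⟨φ₂, h21, h22⟩ := eulerian G.t G.h F (fun v => by
    have := hF v
    unfold deg at this
    rw [this]; decide)
  obtain ⟨φ₄, h41, h42⟩ := hoffman G.t G.h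
    (fun e => if e ∈ F then -3 else if ψ e = 1 then 2 else -3)
    (fun e => if e ∈ F then 3 else if ψ e = 1 then 3 else -2)
    (fun _ => 0) (fun e => by split_ifs <;> simp) (by simp) (by
      intro X
      -- twice the Hoffman function
      have hff : 2 * ff G.t G.h (fun e => if e ∈ F then -3 else if ψ e = 1 then 2 else -3)
          (fun e => if e ∈ F then 3 else if ψ e = 1 then 3 else -2) (fun _ => 0) X =
          6 * (G.cut X ∩ F).card + (G.cut X ∩ Fᶜ).card -
            5 * ∑ v ∈ X, net G.t G.h ψ v := by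
        unfold ff
        rw [net_sum]
        have e1 : ((G.cut X ∩ F).card : ℤ) = ∑ e, if e ∈ G.cut X ∩ F then 1 else 0 := by
          simp only [Finset.sum_boole]
          congr 2
          ext e; simp
        have e2 : ((G.cut X ∩ Fᶜ).card : ℤ) = ∑ e, if e ∈ G.cut X ∩ Fᶜ then 1 else 0 := by
          simp only [Finset.sum_boole]
          congr 2
          ext e; simp
        rw [e1, e2, Finset.mul_sum, Finset.mul_sum, ← Finset.sum_add_distrib,
          ← Finset.sum_sub_distrib]
        rw [Finset.sum_const_zero, zero_add, Finset.mul_sum]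
        refine Finset.sum_congr rfl fun e _ => ?_
        unfold ce
        by_cases he : e ∈ F
        · have h0 : ψ e = 0 := (hψ1 e).2 (by simpa using he)
          by_cases a : G.t e ∈ X <;> by_cases b : G.h e ∈ X <;> simp [a, b, he, cut, h0]
        · rcases (hψ1 e).1 (by simpa using he) with h | h <;>
          by_cases a : G.t e ∈ X <;> by_cases b : G.h e ∈ X <;> simp [a, b, he, cut, h]
      have hm := G.abs_net_le ψ Fᶜ (fun e he => by
        rcases (hψ1 e).1 he with h | h <;> rw [h] <;> simp) (fun e he => (hψ1 e).2 he) X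
      have hpar := net_parity G ψ Fᶜ (fun e he => (hψ1 e).1 he) (fun e he => (hψ1 e).2 he) X
      have hb' := hψ2 X
      have hbf : (G.cut X ∩ B).card ≤ (G.cut X ∩ F).card :=
        Finset.card_le_card (Finset.inter_subset_inter_left hBF)
      have hhs := G.handshake F X
      rw [Finset.sum_congr rfl (fun v _ => hF v)] at hhs
      simp only [Finset.sum_const, smul_eq_mul] at hhs
      have hcard := cut_card G F X
      have hqX := hq X
      rw [abs_le] at hm hb'
      by_cases hcase : (G.cut X ∩ F).card < 2 * sep U τ X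
      · have := hqX hcase
        omega
      · omega)
  refine ⟨φ₂, φ₄, ⟨⟨fun e => ?_, G.isFlow_of_net h22⟩, ⟨fun e => ?_, G.isFlow_of_net h42⟩,
    fun e he => ?_⟩, fun e => ?_⟩
  · by_cases he : e ∈ F
    · rcases (h21 e).1 he with h | h <;> rw [h] <;> simp
    · rw [(h21 e).2 he]; simp
  · have h1 := h41 e
    rw [abs_le]
    push_cast
    split_ifs at h1 <;> constructor <;> omega
  · have he' : e ∉ F := by
      intro heF
      rcases (h21 e).1 heF with h | h <;> rw [h] at he <;> simp at he
    have h1 := h41 e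
    rw [if_neg he', if_neg he'] at h1
    rw [le_abs]
    split_ifs at h1
    · left; exact h1.1
    · right; omega
  · constructor
    · intro h
      by_contra he
      exact h ((h21 e).2 he)
    · intro he
      rcases (h21 e).1 he with h | h <;> rw [h] <;> simp

end Pool.Agent.H884R2.HFP
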