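import Mathlib

namespace Pool.Agent.H884R2.HFP
open Finset

/-- Parity along the cycles of a permutation, starting at prescribed vertices. -/
theorem perm_parity_rep {V : Type*} [Fintype V] [DecidableEq V] (π : Equiv.Perm V) (U : Set V)
    (hU : ∀ u ∈ U, ∀ v ∈ U, π.SameCycle u v → u = v) :
    ∃ (p : V → Prop) (R : Set V),
      (∀ v, π v ∉ R → (p (π v) ↔ ¬ p v)) ∧ (∀ v ∈ R, ¬ p v) ∧
      (∀ u ∈ R, ∀ v ∈ R, π.SameCycle u v → u = v) ∧ U ⊆ R ∧
      (∀ v, ∃ r ∈ R, π.SameCycle r v) := by
  classical
  let S := Equiv.Perm.SameCycle.setoid π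
  let rep0 : V → V := fun v => (Quotient.mk S v).out
  have hrep0 : ∀ v, π.SameCycle (rep0 v) v := fun v => Quotient.mk_out (s := S) v
  have hrep0_eq : ∀ u v, π.SameCycle u v → rep0 u = rep0 v := by
    intro u v h
    have : Quotient.mk S u = Quotient.mk S v := Quotient.sound h
    simp only [rep0, this]
  let rep : V → V := fun v => if h : ∃ u ∈ U, π.SameCycle u v then h.choose else rep0 v
  have hrep : ∀ v, π.SameCycle (rep v) v := by
    intro v
    by_cases h : ∃ u ∈ U, π.SameCycle u v
    · simp only [rep, dif_pos h]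
      exact h.choose_spec.2
    · simp only [rep, dif_neg h]
      exact hrep0 v
  have hrep_eq : ∀ u v, π.SameCycle u v → rep u = rep v := by
    intro u v huv
    by_cases h : ∃ w ∈ U, π.SameCycle w u
    · have h' : ∃ w ∈ U, π.SameCycle w v := by
        obtain ⟨w, hw1, hw2⟩ := h
        exact ⟨w, hw1, hw2.trans huv⟩
      simp only [rep, dif_pos h, dif_pos h']
      exact hU _ h.choose_spec.1 _ h'.choose_spec.1
        ((h.choose_spec.2.trans huv).trans h'.choose_spec.2.symm)
    · have h' : ¬ ∃ w ∈ U, π.SameCycle w v := by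
        rintro ⟨w, hw1, hw2⟩
        exact h ⟨w, hw1, hw2.trans huv.symm⟩
      simp only [rep, dif_neg h, dif_neg h']
      exact hrep0_eq u v huv
  have hex : ∀ v, ∃ n : ℕ, (π ^ n) (rep v) = v := by
    intro v
    obtain ⟨i, _, h⟩ := (hrep v).exists_pow_eq'
    exact ⟨i, h⟩
  let idx : V → ℕ := fun v => Nat.find (hex v)
  have hidx : ∀ v, (π ^ (idx v)) (rep v) = v := fun v => Nat.find_spec (hex v)
  have hmin : ∀ v n, (π ^ n) (rep v) = v → idx v ≤ n := fun v n h => Nat.find_min' (hex v) h
  refine ⟨fun v => Odd (idx v), {v | rep v = v}, ?_, ?_, ?_, ?_, ?_⟩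
  · intro v hv
    have hr : rep (π v) = rep v :=
      (hrep_eq _ _ (Equiv.Perm.SameCycle.refl π v |>.apply_right (f := π))).symm
    have hstep : idx (π v) = idx v + 1 := by
      have h1 : idx (π v) ≤ idx v + 1 := by
        apply hmin
        rw [hr, pow_succ', Equiv.Perm.mul_apply, hidx]
      have h2 : idx (π v) ≠ 0 := by
        intro h0
        have := hidx (π v)
        rw [h0] at this
        simp at this
        exact hv this
      obtain ⟨m, hm⟩ := Nat.exists_eq_succ_of_ne_zero h2
      have h3 := hidx (π v)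
      rw [hm, hr, Nat.succ_eq_add_one, pow_succ', Equiv.Perm.mul_apply] at h3
      have h4 := π.injective h3
      have h5 := hmin v m h4
      omega
    show Odd (idx (π v)) ↔ ¬ Odd (idx v)
    rw [hstep, Nat.odd_add_one]
  · intro v hv
    have : idx v = 0 := by
      have h1 := hmin v 0 (by simpa using hv)
      omega
    show ¬ Odd (idx v)
    rw [this]; decide
  · intro u hu v hv h
    have h1 : rep u = u := hu
    have h2 : rep v = v := hv
    rw [← h1, ← h2]
    exact hrep_eq _ _ h
  · intro u hu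
    have h : ∃ w ∈ U, π.SameCycle w u := ⟨u, hu, Equiv.Perm.SameCycle.refl π u⟩
    show rep u = u
    simp only [rep, dif_pos h]
    exact hU _ h.choose_spec.1 _ hu h.choose_spec.2
  · intro v
    exact ⟨rep v, hrep_eq _ _ (hrep v), hrep v⟩

end Pool.Agent.H884R2.HFP
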