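import Pool.Agent.H884R2.HFP.Matching

namespace Pool.Agent.H884R2.HFP
open Finset Pool.Agent.H160R2.HF Pool.Agent.H160R2.HF.OrGraph

variable {V E : Type*} [Fintype V] [Fintype E] [DecidableEq V] [DecidableEq E] (G : OrGraph V E)

/-- The number of pairs `{u, τ u}`, `u ∈ U`, with exactly one end in `X` (for an involution `τ`). -/
def sep (U : Finset V) (τ : V → V) (X : Finset V) : ℕ :=
  (U.filter (fun u => u ∈ X ∧ τ u ∉ X)).card

/-- A set containing exactly one vertex of every pair. -/
theorem exists_half (U : Finset V) (τ : V → V)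
    (hτ : ∀ u ∈ U, τ u ∈ U ∧ τ (τ u) = u ∧ τ u ≠ u) :
    ∃ S ⊆ U, ∀ u ∈ U, (u ∈ S ↔ τ u ∉ S) := by
  classical
  let e := Fintype.equivFin V
  refine ⟨U.filter (fun u => e u < e (τ u)), Finset.filter_subset _ _, ?_⟩
  intro u hu
  obtain ⟨h1, h2, h3⟩ := hτ u hu
  have h4 : e u ≠ e (τ u) := fun h => h3 (e.injective h).symm
  simp only [Finset.mem_filter, hu, h1, h2, true_and, not_lt]
  constructor
  · intro h; exact h.le
  · intro h; exact lt_of_le_of_ne h h4

omit [Fintype V] in
theorem sum_half [Fintype V] (U : Finset V) (τ : V → V)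
    (hτ : ∀ u ∈ U, τ u ∈ U ∧ τ (τ u) = u ∧ τ u ≠ u) (S : Finset V) (hSU : S ⊆ U)
    (hS : ∀ u ∈ U, (u ∈ S ↔ τ u ∉ S)) (X : Finset V) :
    (S.filter (fun u => ¬ (u ∈ X ↔ τ u ∈ X))).card = sep U τ X := by
  classical
  unfold sep
  apply Finset.card_bij (fun u _ => if u ∈ X then u else τ u)
  · intro u hu
    rw [Finset.mem_filter] at hu
    obtain ⟨hu1, hu2⟩ := hu
    obtain ⟨h1, h2, h3⟩ := hτ u (hSU hu1)
    rw [Finset.mem_filter]
    by_cases h : u ∈ X
    · have h' : τ u ∉ X := fun h' => hu2 ⟨fun _ => h', fun _ => h⟩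
      rw [if_pos h]
      exact ⟨hSU hu1, h, h'⟩
    · have h' : τ u ∈ X := by
        by_contra h'
        exact hu2 ⟨fun a => absurd a h, fun a => absurd a h'⟩
      rw [if_neg h]
      refine ⟨h1, h', ?_⟩
      rw [h2]; exact h
  · intro u hu v hv huv
    rw [Finset.mem_filter] at hu hv
    obtain ⟨hu1, hu2⟩ := hu
    obtain ⟨hv1, hv2⟩ := hv
    obtain ⟨_, h2, _⟩ := hτ u (hSU hu1)
    obtain ⟨_, g2, _⟩ := hτ v (hSU hv1)
    by_cases h : u ∈ X <;> by_cases g : v ∈ X
    · rw [if_pos h, if_pos g] at huv; exact huv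
    · rw [if_pos h, if_neg g] at huv
      exfalso
      rw [huv] at hu1
      exact ((hS v (hSU hv1)).1 hv1) hu1
    · rw [if_neg h, if_pos g] at huv
      exfalso
      rw [← huv] at hv1
      exact ((hS u (hSU hu1)).1 hu1) hv1
    · rw [if_neg h, if_neg g] at huv
      rw [← h2, ← g2, huv]
  · intro w hw
    rw [Finset.mem_filter] at hw
    obtain ⟨hw1, hw2, hw3⟩ := hw
    obtain ⟨h1, h2, h3⟩ := hτ w hw1
    by_cases h : w ∈ S
    · refine ⟨w, Finset.mem_filter.2 ⟨h, fun a => hw3 (a.1 hw2)⟩, ?_⟩
      rw [if_pos hw2]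
    · have h' : τ w ∈ S := by
        by_contra h'
        exact h ((hS w hw1).2 h')
      refine ⟨τ w, Finset.mem_filter.2 ⟨h', ?_⟩, ?_⟩
      · rw [h2]; exact fun a => hw3 (a.2 hw2)
      · rw [if_neg hw3, h2]

/-- The orientation of the perfect matching `M` obtained from a matching `B` missing exactly `U`
and a pairing of `U`. -/
theorem exists_orientation_pairing (M B : Finset E) (hMB : Disjoint M B)
    (hM : ∀ v, G.deg M v = 1) (U : Finset V) (hB : ∀ v, G.deg B v = if v ∈ U then 0 else 1)
    (τ : V → V) (hτ : ∀ u ∈ U, τ u ∈ U ∧ τ (τ u) = u ∧ τ u ≠ u) :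
    ∃ ψ : E → ℤ, (∀ e, (e ∈ M → ψ e = 1 ∨ ψ e = -1) ∧ (e ∉ M → ψ e = 0)) ∧
      ∀ X : Finset V, |∑ v ∈ X, net G.t G.h ψ v| ≤ (G.cut X ∩ B).card + sep U τ X := by
  classical
  obtain ⟨S, hSU, hS⟩ := exists_half U τ hτ
  have hdegMB : ∀ v, G.deg (M ∪ B) v = G.deg M v + G.deg B v := by
    intro v
    unfold deg
    rw [Finset.filter_union, Finset.filter_union, Finset.card_union_of_disjoint,
      Finset.card_union_of_disjoint]
    · ring
    · exact Finset.disjoint_filter_filter hMB
    · exact Finset.disjoint_filter_filter hMB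
  let t' : E ⊕ V → V := Sum.elim G.t id
  let h' : E ⊕ V → V := Sum.elim G.h τ
  let F' : Finset (E ⊕ V) := (M ∪ B).disjSum S
  have hfil : ∀ (k : E → V) (l : V → V) (v : V),
      (F'.filter (fun o => Sum.elim k l o = v)).card =
        ((M ∪ B).filter (fun e => k e = v)).card + (S.filter (fun u => l u = v)).card := by
    intro k l v
    rw [Finset.card_filter, Finset.card_filter, Finset.card_filter]
    simp only [F']
    rw [Finset.sum_disjSum]
    rfl
  have hSone : ∀ v, (S.filter (fun u => id u = v)).card + (S.filter (fun u => τ u = v)).card =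
      if v ∈ U then 1 else 0 := by
    intro v
    by_cases hv : v ∈ U
    · rw [if_pos hv]
      obtain ⟨h1, h2, h3⟩ := hτ v hv
      have e1 : S.filter (fun u => id u = v) = if v ∈ S then {v} else ∅ := by
        ext w
        by_cases hvS : v ∈ S
        · rw [if_pos hvS, Finset.mem_filter, Finset.mem_singleton]
          exact ⟨fun h => h.2, fun h => ⟨by rw [h]; exact hvS, h⟩⟩
        · rw [if_neg hvS, Finset.mem_filter]
          simp only [id, Finset.notMem_empty, iff_false]
          rintro ⟨h4, h5⟩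
          exact hvS (h5 ▸ h4)
      have e2 : S.filter (fun u => τ u = v) = if τ v ∈ S then {τ v} else ∅ := by
        ext w
        by_cases hvS : τ v ∈ S
        · rw [if_pos hvS, Finset.mem_filter, Finset.mem_singleton]
          constructor
          · rintro ⟨h4, h5⟩
            rw [← h5, (hτ w (hSU h4)).2.1]
          · intro h
            rw [h]; exact ⟨hvS, h2⟩
        · rw [if_neg hvS, Finset.mem_filter]
          simp only [Finset.notMem_empty, iff_false]
          rintro ⟨h4, h5⟩
          apply hvS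
          rw [← h5, (hτ w (hSU h4)).2.1]; exact h4
      rw [e1, e2]
      have h6 := hS v hv
      by_cases hvS : v ∈ S
      · rw [if_pos hvS, if_neg (h6.1 hvS)]; simp
      · have h7 : τ v ∈ S := by
          by_contra h7
          exact hvS (h6.2 h7)
        rw [if_neg hvS, if_pos h7]; simp
    · rw [if_neg hv]
      have e1 : S.filter (fun u => id u = v) = ∅ := by
        ext w
        rw [Finset.mem_filter]
        simp only [id, Finset.notMem_empty, iff_false]
        rintro ⟨h4, h5⟩
        exact hv (h5 ▸ hSU h4)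
      have e2 : S.filter (fun u => τ u = v) = ∅ := by
        ext w
        rw [Finset.mem_filter]
        simp only [Finset.notMem_empty, iff_false]
        rintro ⟨h4, h5⟩
        exact hv (h5 ▸ (hτ w (hSU h4)).1)
      rw [e1, e2]; simp
  obtain ⟨χ, hχ1, hχ2⟩ := eulerian t' h' F' (fun v => by
    simp only [t', h']
    rw [hfil, hfil]
    have h1 := hdegMB v
    rw [hM v, hB v] at h1
    have h2 := hSone v
    unfold deg at h1
    refine ⟨1, ?_⟩
    by_cases hv : v ∈ U
    · rw [if_pos hv] at h1 h2; omega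
    · rw [if_neg hv] at h1 h2; omega)
  refine ⟨fun e => if e ∈ M then χ (Sum.inl e) else 0, ?_, ?_⟩
  · intro e
    constructor
    · intro he
      simp only [he, if_true]
      exact (hχ1 (Sum.inl e)).1 (by simp [F', he])
    · intro he
      simp [he]
  · intro X
    have h0 : ∑ v ∈ X, net t' h' χ v = 0 := by
      rw [Finset.sum_congr rfl (fun v _ => hχ2 v)]; simp
    rw [net_sum, Fintype.sum_sum_type] at h0
    have hsplit : ∀ e, ((if t' (Sum.inl e) ∈ X then χ (Sum.inl e) else 0) -
        (if h' (Sum.inl e) ∈ X then χ (Sum.inl e) else 0)) =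
        ((if G.t e ∈ X then (if e ∈ M then χ (Sum.inl e) else 0) else 0) -
          (if G.h e ∈ X then (if e ∈ M then χ (Sum.inl e) else 0) else 0)) +
        ((if G.t e ∈ X then (if e ∈ B then χ (Sum.inl e) else 0) else 0) -
          (if G.h e ∈ X then (if e ∈ B then χ (Sum.inl e) else 0) else 0)) := by
      intro e
      change ((if G.t e ∈ X then χ (Sum.inl e) else 0) -
        (if G.h e ∈ X then χ (Sum.inl e) else 0)) = _
      by_cases a : e ∈ M
      · have : e ∉ B := Finset.disjoint_left.1 hMB a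
        simp [a, this]
      · by_cases b : e ∈ B
        · simp [a, b]
        · have := (hχ1 (Sum.inl e)).2 (by simp [F', a, b])
          simp [a, b, this]
    rw [Finset.sum_congr rfl (fun e _ => hsplit e), Finset.sum_add_distrib, ← net_sum,
      ← net_sum] at h0
    have hbd := G.abs_net_le (fun e => if e ∈ B then χ (Sum.inl e) else 0) B (by
      intro e he
      simp only [he, if_true]
      rcases (hχ1 (Sum.inl e)).1 (by simp [F', he]) with h | h <;> rw [h] <;> simp) (by
      intro e he
      simp [he]) X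
    have hN : |∑ u, ((if t' (Sum.inr u) ∈ X then χ (Sum.inr u) else 0) -
        (if h' (Sum.inr u) ∈ X then χ (Sum.inr u) else 0))| ≤ sep U τ X := by
      rw [← sum_half U τ hτ S hSU hS X]
      have h2 : (((S.filter (fun u => ¬ (u ∈ X ↔ τ u ∈ X))).card : ℕ) : ℤ) =
          ∑ u, if u ∈ S ∧ ¬ (u ∈ X ↔ τ u ∈ X) then 1 else 0 := by
        simp only [Finset.sum_boole]
        congr 2
        ext e; simp
      rw [h2]
      refine (Finset.abs_sum_le_sum_abs _ _).trans (Finset.sum_le_sum fun u _ => ?_)
      change |(if u ∈ X then χ (Sum.inr u) else 0) -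
        (if τ u ∈ X then χ (Sum.inr u) else 0)| ≤ _
      by_cases hu : u ∈ S
      · have := (hχ1 (Sum.inr u)).1 (by simp [F', hu])
        rcases this with h | h <;> by_cases a : u ∈ X <;> by_cases b : τ u ∈ X <;>
          simp [a, b, hu, h]
      · have := (hχ1 (Sum.inr u)).2 (by simp [F', hu])
        simp [hu, this]
    rw [abs_le] at hbd hN ⊢
    constructor <;> linarith [hbd.1, hbd.2, hN.1, hN.2]

end Pool.Agent.H884R2.HFP
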